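import Pool.Agent.Helper58.ETL.Defs

/-! ETL-S8 (from the ring to finitely many valuation rings); helper48. -/

set_option autoImplicit false

namespace Pool.Agent.Helper58.ETL

variable {k F : Type*} [Field k] [Field F] [Algebra k F]

/-- The localisation of `O` at the prime ideal `P`, inside `F`. -/
def locRing (O : Subalgebra k F) (P : Ideal O) [hP : P.IsPrime] : Subring F where
  carrier := {x | ∃ s : O, s ∉ P ∧ (s : F) * x ∈ O}
  mul_mem' := by
    rintro x y ⟨s, hs, hsx⟩ ⟨t, ht, hty⟩
    refine ⟨s * t, fun h => (hP.mem_or_mem h).elim hs ht, ?_⟩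
    have : ((s * t : O) : F) * (x * y) = ((s : F) * x) * ((t : F) * y) := by
      push_cast; ring
    rw [this]
    exact O.mul_mem hsx hty
  one_mem' := ⟨1, fun h => hP.ne_top ((Ideal.eq_top_iff_one P).2 h), by simp⟩
  add_mem' := by
    rintro x y ⟨s, hs, hsx⟩ ⟨t, ht, hty⟩
    refine ⟨s * t, fun h => (hP.mem_or_mem h).elim hs ht, ?_⟩
    have : ((s * t : O) : F) * (x + y) = (t : F) * ((s : F) * x) + (s : F) * ((t : F) * y) := by
      push_cast; ring
    rw [this]
    exact O.add_mem (O.mul_mem t.2 hsx) (O.mul_mem s.2 hty)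
  zero_mem' := ⟨1, fun h => hP.ne_top ((Ideal.eq_top_iff_one P).2 h), by simp⟩
  neg_mem' := by
    rintro x ⟨s, hs, hsx⟩
    refine ⟨s, hs, ?_⟩
    rw [mul_neg]
    exact O.neg_mem hsx

theorem mem_locRing {O : Subalgebra k F} {P : Ideal O} [P.IsPrime] {x : F} :
    x ∈ locRing O P ↔ ∃ s : O, s ∉ P ∧ (s : F) * x ∈ O := Iff.rfl

theorem le_locRing {O : Subalgebra k F} (P : Ideal O) [hP : P.IsPrime] {x : F} (hx : x ∈ O) :
    x ∈ locRing O P :=
  ⟨1, fun h => hP.ne_top ((Ideal.eq_top_iff_one P).2 h), by simpa using hx⟩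

theorem exists_good [Infinite k] {N : ℕ} (O : Subalgebra k F) (x : F)
    (h : {a : k | (x - algebraMap k F a)⁻¹ ∉ O}.encard ≤ N) :
    ∃ a : k, (x - algebraMap k F a)⁻¹ ∈ O := by
  have hfin : {a : k | (x - algebraMap k F a)⁻¹ ∉ O}.Finite := by
    apply Set.finite_of_encard_le_coe h
  obtain ⟨a, ha⟩ := hfin.infinite_compl.nonempty
  exact ⟨a, by simpa using ha⟩

/-- The localisation as valuation subring. -/
def locVal [Infinite k] {N : ℕ} (O : Subalgebra k F)
    (hO : ∀ x : F, x ∉ Set.range (algebraMap k F) →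
      {a : k | (x - algebraMap k F a)⁻¹ ∉ O}.encard ≤ N) (P : Ideal O) [hP : P.IsPrime] :
    ValuationSubring F where
  toSubring := locRing O P
  mem_or_inv_mem' := by
    intro x
    change x ∈ locRing O P ∨ x⁻¹ ∈ locRing O P
    by_cases hx : x ∈ Set.range (algebraMap k F)
    · obtain ⟨c, rfl⟩ := hx
      exact Or.inl (le_locRing P (O.algebraMap_mem c))
    obtain ⟨a, ha⟩ := exists_good O x (hO x hx)
    have hxa : x - algebraMap k F a ≠ 0 := by
      intro h0
      exact hx ⟨a, (sub_eq_zero.1 h0).symm⟩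
    have hx0 : x ≠ 0 := by
      rintro rfl
      exact hx ⟨0, map_zero _⟩
    set u : O := ⟨(x - algebraMap k F a)⁻¹, ha⟩ with hu
    have huF : (u : F) = (x - algebraMap k F a)⁻¹ := rfl
    have key : (u : F) * x = 1 + algebraMap k F a * u := by
      rw [huF]
      field_simp
      ring
    by_cases huP : u ∈ P
    · right
      refine ⟨1 + algebraMap k O a * u, ?_, ?_⟩
      · intro h
        apply hP.ne_top
        rw [Ideal.eq_top_iff_one]
        have h2 : algebraMap k O a * u ∈ P := P.mul_mem_left _ huP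
        have h3 := P.sub_mem h h2
        simpa using h3
      · have h1 : ((1 + algebraMap k O a * u : O) : F) = (u : F) * x := by
          rw [key]
          push_cast
          rfl
        rw [h1, mul_assoc, mul_inv_cancel₀ hx0, mul_one]
        exact u.2
    · left
      refine ⟨u, huP, ?_⟩
      rw [key]
      exact O.add_mem O.one_mem (O.mul_mem (O.algebraMap_mem a) u.2)

theorem mem_locVal [Infinite k] {N : ℕ} {O : Subalgebra k F}
    {hO : ∀ x : F, x ∉ Set.range (algebraMap k F) →
      {a : k | (x - algebraMap k F a)⁻¹ ∉ O}.encard ≤ N} {P : Ideal O} [hP : P.IsPrime] {x : F} :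
    x ∈ locVal O hO P ↔ ∃ s : O, s ∉ P ∧ (s : F) * x ∈ O := Iff.rfl

theorem mem_ideal_iff [Infinite k] {N : ℕ} {O : Subalgebra k F}
    (hO : ∀ x : F, x ∉ Set.range (algebraMap k F) →
      {a : k | (x - algebraMap k F a)⁻¹ ∉ O}.encard ≤ N) (P : Ideal O) [hP : P.IsPrime] (s : O) :
    s ∈ P ↔ (s = 0 ∨ (s : F)⁻¹ ∉ locVal O hO P) := by
  constructor
  · intro hs
    by_cases h0 : s = 0
    · exact Or.inl h0
    right
    rintro ⟨t, ht, hts⟩
    apply ht
    have hs0 : (s : F) ≠ 0 := fun h => h0 (Subtype.ext h)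
    have : t = (⟨(t : F) * (s : F)⁻¹, hts⟩ : O) * s := by
      apply Subtype.ext
      push_cast
      field_simp
    rw [this]
    exact P.mul_mem_left _ hs
  · rintro (rfl | h)
    · exact P.zero_mem
    · by_contra hs
      apply h
      refine ⟨s, hs, ?_⟩
      have hs0 : (s : F) ≠ 0 := by
        intro h0
        apply hs
        have : s = 0 := Subtype.ext h0
        rw [this]
        exact P.zero_mem
      rw [mul_inv_cancel₀ hs0]
      exact O.one_mem

theorem card_maximal_le [Infinite k] {N : ℕ} (hN : 0 < N) (O : Subalgebra k F)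
    (hO : ∀ x : F, x ∉ Set.range (algebraMap k F) →
      {a : k | (x - algebraMap k F a)⁻¹ ∉ O}.encard ≤ N) (s : Finset (MaximalSpectrum O)) :
    s.card ≤ N := by
  by_contra hcon
  push Not at hcon
  obtain ⟨t, hts, htc⟩ := Finset.exists_subset_card_eq (s := s) (n := N + 1) hcon
  -- distinct constants
  have hcoe : ∃ c : MaximalSpectrum O → k, Set.InjOn c t := by
    have h1 : Nonempty ((t : Finset (MaximalSpectrum O)) ↪ k) := by
      obtain ⟨f⟩ : Nonempty (ℕ ↪ k) := ⟨Infinite.natEmbedding k⟩
      exact ⟨(t.equivFin.toEmbedding.trans Fin.valEmbedding).trans f⟩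
    obtain ⟨f⟩ := h1
    classical
    refine ⟨fun P => if h : P ∈ t then f ⟨P, h⟩ else 0, ?_⟩
    intro P hP Q hQ hPQ
    have hP' : P ∈ t := hP
    have hQ' : Q ∈ t := hQ
    simp only [hP', hQ', dif_pos] at hPQ
    have := f.injective hPQ
    simpa using this
  obtain ⟨c, hc⟩ := hcoe
  obtain ⟨x, hx'⟩ := Ideal.exists_forall_sub_mem_ideal
    (I := fun P : {P : MaximalSpectrum O // P ∈ t} => P.1.asIdeal) (by
      intro P Q hPQ
      have h1 := P.1.isMaximal
      have h2 := Q.1.isMaximal
      exact Ideal.isCoprime_of_isMaximal (fun h => hPQ (Subtype.ext (MaximalSpectrum.ext h))))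
    (fun P => algebraMap k O (c P.1))
  have hx : ∀ P ∈ t, x - algebraMap k O (c P) ∈ P.asIdeal := fun P hP => hx' ⟨P, hP⟩
  -- constants in the ideal
  have hconst : ∀ P ∈ t, ∀ b : k, algebraMap k O b ∈ P.asIdeal → b = 0 := by
    intro P _ b hb
    by_contra hb0
    apply P.isMaximal.ne_top
    rw [Ideal.eq_top_iff_one]
    have : (1 : O) = algebraMap k O b⁻¹ * algebraMap k O b := by
      rw [← map_mul, inv_mul_cancel₀ hb0, map_one]
    rw [this]
    exact P.asIdeal.mul_mem_left _ hb
  have hxk : (x : F) ∉ Set.range (algebraMap k F) := by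
    rintro ⟨d, hd⟩
    have hd' : x = algebraMap k O d := by
      apply Subtype.ext
      rw [← hd]
      rfl
    have hall : ∀ P ∈ t, c P = d := by
      intro P hP
      have h1 := hx P hP
      rw [hd', ← map_sub] at h1
      have := hconst P hP _ h1
      exact (sub_eq_zero.1 this).symm
    have h2 : 1 < t.card := by omega
    obtain ⟨P, hP, Q, hQ, hPQ⟩ := Finset.one_lt_card.1 h2
    exact hPQ (hc hP hQ ((hall P hP).trans (hall Q hQ).symm))
  have h3 := hO x hxk
  have h4 : (c '' (t : Set (MaximalSpectrum O))) ⊆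
      {a : k | ((x : F) - algebraMap k F a)⁻¹ ∉ O} := by
    rintro _ ⟨P, hP, rfl⟩
    simp only [Set.mem_ofPred_eq]
    intro hmem
    have h5 := hx P hP
    apply P.isMaximal.ne_top
    rw [Ideal.eq_top_iff_one]
    have hne : (x : F) - algebraMap k F (c P) ≠ 0 := by
      intro h0
      exact hxk ⟨c P, (sub_eq_zero.1 h0).symm⟩
    have : (1 : O) = (⟨((x : F) - algebraMap k F (c P))⁻¹, hmem⟩ : O) *
        (x - algebraMap k O (c P)) := by
      apply Subtype.ext
      push_cast
      rw [inv_mul_cancel₀ hne]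
    rw [this]
    exact P.asIdeal.mul_mem_left _ h5
  have h5 := (Set.encard_le_encard h4).trans h3
  rw [hc.encard_image, Set.encard_coe_eq_coe_finsetCard, htc] at h5
  have h6 : N + 1 ≤ N := by exact_mod_cast h5
  omega

/-- ETL-S8 (from the ring to finitely many valuation rings). -/
theorem exists_valuations [Infinite k] {N : ℕ} (hN : 0 < N) (O : Subalgebra k F)
    (hO : ∀ x : F, x ∉ Set.range (algebraMap k F) →
      {a : k | (x - algebraMap k F a)⁻¹ ∉ O}.encard ≤ N) :
    ∃ (n : ℕ) (v : Fin n → ValuationSubring F), n ≤ N ∧ Function.Injective v ∧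
      (∀ i, ∀ c : k, algebraMap k F c ∈ v i) ∧ (∀ x : F, x ∈ O ↔ ∀ i, x ∈ v i) := by
  have hfin : Finite (MaximalSpectrum O) := by
    by_contra hinf
    rw [not_finite_iff_infinite] at hinf
    obtain ⟨s, hs⟩ := Infinite.exists_subset_card_eq (MaximalSpectrum O) (N + 1)
    have := card_maximal_le hN O hO s
    omega
  have := Fintype.ofFinite (MaximalSpectrum O)
  refine ⟨Fintype.card (MaximalSpectrum O), fun i =>
    haveI := ((Fintype.equivFin (MaximalSpectrum O)).symm i).isMaximal.isPrime
    locVal O hO ((Fintype.equivFin (MaximalSpectrum O)).symm i).asIdeal,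
    card_maximal_le hN O hO Finset.univ, ?_, ?_, ?_⟩
  · intro i j hij
    apply (Fintype.equivFin (MaximalSpectrum O)).symm.injective
    apply MaximalSpectrum.ext
    have h1 := ((Fintype.equivFin (MaximalSpectrum O)).symm i).isMaximal.isPrime
    have h2 := ((Fintype.equivFin (MaximalSpectrum O)).symm j).isMaximal.isPrime
    simp only at hij
    ext s
    rw [mem_ideal_iff hO, mem_ideal_iff hO, hij]
  · intro i c
    have h1 := ((Fintype.equivFin (MaximalSpectrum O)).symm i).isMaximal.isPrime
    exact le_locRing _ (O.algebraMap_mem c)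
  · intro x
    constructor
    · intro hx i
      have h1 := ((Fintype.equivFin (MaximalSpectrum O)).symm i).isMaximal.isPrime
      exact le_locRing _ hx
    · intro hx
      let I : Ideal O :=
        { carrier := {s : O | (s : F) * x ∈ O}
          add_mem' := by
            intro a b ha hb
            simp only [Set.mem_ofPred_eq] at ha hb ⊢
            push_cast
            rw [add_mul]
            exact O.add_mem ha hb
          zero_mem' := by simp
          smul_mem' := by
            intro a b hb
            simp only [Set.mem_ofPred_eq] at hb ⊢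
            rw [smul_eq_mul]
            push_cast
            rw [mul_assoc]
            exact O.mul_mem a.2 hb }
      have hI : I = ⊤ := by
        by_contra hne
        obtain ⟨M, hM, hIM⟩ := Ideal.exists_le_maximal I hne
        have := hM.isPrime
        have h1 := hx (Fintype.equivFin (MaximalSpectrum O) ⟨M, hM⟩)
        simp only [Equiv.symm_apply_apply] at h1
        obtain ⟨s, hs, hsx⟩ := h1
        exact hs (hIM hsx)
      have h1 : (1 : O) ∈ I := by rw [hI]; trivial
      have h2 : ((1 : O) : F) * x ∈ O := h1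
      simpa using h2

end Pool.Agent.Helper58.ETL
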